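import Pool.Agent.Helper88.PhiN

/-! Row D of MP_9074a0_PAIR: the fundamental solutions of `y'' = c y`. -/

set_option autoImplicit false

namespace Phi4

open Real Filter MeasureTheory intervalIntegral Set

theorem Cf_zero (c : ℝ) : Cf c 0 = 1 := by
  unfold Cf; split_ifs <;> simp

theorem Sf_zero (c : ℝ) : Sf c 0 = 0 := by
  unfold Sf; split_ifs <;> simp

namespace h58

theorem Cf_pos {c : ℝ} (h : 0 < c) : Cf c = fun t => cosh (√c * t) := by
  funext t; unfold Cf; rw [if_pos h.le]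

theorem Cf_z : Cf 0 = fun _ => 1 := by
  funext t; unfold Cf; simp

theorem Cf_neg {c : ℝ} (h : c < 0) : Cf c = fun t => cos (√(-c) * t) := by
  funext t; unfold Cf; rw [if_neg (not_le.2 h)]

theorem Sf_pos {c : ℝ} (h : 0 < c) : Sf c = fun t => sinh (√c * t) / √c := by
  funext t; unfold Sf; rw [if_pos h]

theorem Sf_z : Sf 0 = fun t => t := by
  funext t; unfold Sf; simp

theorem Sf_neg {c : ℝ} (h : c < 0) : Sf c = fun t => sin (√(-c) * t) / √(-c) := by
  funext t; unfold Sf; rw [if_neg (not_lt.2 h.le), if_neg h.ne]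

end h58

open h58

theorem hasDerivAt_Cf (c t : ℝ) : HasDerivAt (Cf c) (c * Sf c t) t := by
  rcases lt_trichotomy c 0 with h | h | h
  · rw [Cf_neg h, Sf_neg h]
    have h0 : 0 < √(-c) := sqrt_pos.2 (by linarith)
    have hs : √(-c) * √(-c) = -c := mul_self_sqrt (by linarith)
    have h1 : HasDerivAt (fun t => √(-c) * t) (√(-c) * 1) t := (hasDerivAt_id t).const_mul _
    refine h1.cos.congr_deriv ?_
    field_simp
    linear_combination (-sin (√(-c) * t)) * hs
  · subst h
    rw [Cf_z]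
    simpa using hasDerivAt_const t (1:ℝ)
  · rw [Cf_pos h, Sf_pos h]
    have h0 : 0 < √c := sqrt_pos.2 h
    have hs : √c * √c = c := mul_self_sqrt h.le
    have h1 : HasDerivAt (fun t => √c * t) (√c * 1) t := (hasDerivAt_id t).const_mul _
    refine h1.cosh.congr_deriv ?_
    field_simp
    linear_combination (sinh (√c * t)) * hs

theorem hasDerivAt_Sf (c t : ℝ) : HasDerivAt (Sf c) (Cf c t) t := by
  rcases lt_trichotomy c 0 with h | h | h
  · rw [Cf_neg h, Sf_neg h]
    have h0 : 0 < √(-c) := sqrt_pos.2 (by linarith)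
    have h1 : HasDerivAt (fun t => √(-c) * t) (√(-c) * 1) t := (hasDerivAt_id t).const_mul _
    refine (h1.sin.div_const (√(-c))).congr_deriv ?_
    rw [mul_one, mul_div_assoc, div_self h0.ne', mul_one]
  · subst h
    rw [Cf_z, Sf_z]
    exact hasDerivAt_id t
  · rw [Cf_pos h, Sf_pos h]
    have h0 : 0 < √c := sqrt_pos.2 h
    have h1 : HasDerivAt (fun t => √c * t) (√c * 1) t := (hasDerivAt_id t).const_mul _
    refine (h1.sinh.div_const (√c)).congr_deriv ?_
    rw [mul_one, mul_div_assoc, div_self h0.ne', mul_one]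

theorem Cf_sq (c t : ℝ) : Cf c t ^ 2 - c * Sf c t ^ 2 = 1 := by
  rcases lt_trichotomy c 0 with h | h | h
  · rw [Cf_neg h, Sf_neg h]
    have h0 : 0 < √(-c) := sqrt_pos.2 (by linarith)
    have hs : √(-c) ^ 2 = -c := sq_sqrt (by linarith)
    have : c * (sin (√(-c) * t) / √(-c)) ^ 2 = - sin (√(-c) * t) ^ 2 := by
      rw [div_pow, hs]
      have : c ≠ 0 := h.ne
      field_simp
    simp only
    rw [this]
    linarith [sin_sq_add_cos_sq (√(-c) * t)]
  · subst h
    rw [Cf_z]
    simp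
  · rw [Cf_pos h, Sf_pos h]
    have h0 : 0 < √c := sqrt_pos.2 h
    have hs : √c ^ 2 = c := sq_sqrt h.le
    have : c * (sinh (√c * t) / √c) ^ 2 = sinh (√c * t) ^ 2 := by
      rw [div_pow, hs]
      have : c ≠ 0 := h.ne'
      field_simp
    simp only
    rw [this]
    linarith [cosh_sq (√c * t)]

theorem Sf_sub (c s t : ℝ) : Sf c (t - s) = Sf c t * Cf c s - Cf c t * Sf c s := by
  rcases lt_trichotomy c 0 with h | h | h
  · rw [Cf_neg h, Sf_neg h]
    simp only
    rw [mul_sub, sin_sub]; ring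
  · subst h
    rw [Cf_z, Sf_z]
    simp
  · rw [Cf_pos h, Sf_pos h]
    simp only
    rw [mul_sub, sinh_sub]; ring

namespace h58

theorem continuous_Cf (c : ℝ) : Continuous (Cf c) :=
  continuous_iff_continuousAt.2 fun t => (hasDerivAt_Cf c t).continuousAt

theorem continuous_Sf (c : ℝ) : Continuous (Sf c) :=
  continuous_iff_continuousAt.2 fun t => (hasDerivAt_Sf c t).continuousAt

end h58

theorem Ef_zero (c : ℝ) (F : ℝ → ℝ) : Ef c F 0 = 0 := by
  unfold Ef; simp

theorem Ef1_zero (c : ℝ) (F : ℝ → ℝ) : Ef1 c F 0 = 0 := by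
  unfold Ef1; simp

theorem hasDerivAt_Ef (c : ℝ) {F : ℝ → ℝ} (hF : Continuous F) (t : ℝ) :
    HasDerivAt (Ef c F) (Ef1 c F t) t := by
  have i1 : HasDerivAt (fun t => ∫ s in (0:ℝ)..t, Cf c s * F s) (Cf c t * F t) t :=
    (((continuous_Cf c).mul hF).integral_hasStrictDerivAt 0 t).hasDerivAt
  have i2 : HasDerivAt (fun t => ∫ s in (0:ℝ)..t, Sf c s * F s) (Sf c t * F t) t :=
    (((continuous_Sf c).mul hF).integral_hasStrictDerivAt 0 t).hasDerivAt
  have h := (((hasDerivAt_Sf c t).mul i1).sub ((hasDerivAt_Cf c t).mul i2)).neg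
  refine h.congr_deriv ?_
  unfold Ef1
  ring

theorem hasDerivAt_Ef1 (c : ℝ) {F : ℝ → ℝ} (hF : Continuous F) (t : ℝ) :
    HasDerivAt (Ef1 c F) (c * Ef c F t - F t) t := by
  have i1 : HasDerivAt (fun t => ∫ s in (0:ℝ)..t, Cf c s * F s) (Cf c t * F t) t :=
    (((continuous_Cf c).mul hF).integral_hasStrictDerivAt 0 t).hasDerivAt
  have i2 : HasDerivAt (fun t => ∫ s in (0:ℝ)..t, Sf c s * F s) (Sf c t * F t) t :=
    (((continuous_Sf c).mul hF).integral_hasStrictDerivAt 0 t).hasDerivAt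
  have h := (((hasDerivAt_Cf c t).mul i1).sub (((hasDerivAt_Sf c t).const_mul c).mul i2)).neg
  refine h.congr_deriv ?_
  have hq := Cf_sq c t
  unfold Ef
  linear_combination (F t) * (-hq)

/-- uniqueness for the Cauchy problem -/
theorem Ef_unique {c : ℝ} {F y y' : ℝ → ℝ} (hF : Continuous F) (h0 : y 0 = 0) (h1 : y' 0 = 0)
    (hy : ∀ t, HasDerivAt y (y' t) t) (hy' : ∀ t, HasDerivAt y' (c * y t - F t) t) :
    y = Ef c F := by
  have hd : ∀ t, HasDerivAt (fun t => y t - Ef c F t) (y' t - Ef1 c F t) t := fun t =>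
    (hy t).sub (hasDerivAt_Ef c hF t)
  have hd' : ∀ t, HasDerivAt (fun t => y' t - Ef1 c F t) (c * (y t - Ef c F t)) t := fun t =>
    ((hy' t).sub (hasDerivAt_Ef1 c hF t)).congr_deriv (by ring)
  have hu : ∀ t, HasDerivAt (fun t => Cf c t * (y' t - Ef1 c F t)
      - c * Sf c t * (y t - Ef c F t)) 0 t := fun t =>
    (((hasDerivAt_Cf c t).mul (hd' t)).sub
      (((hasDerivAt_Sf c t).const_mul c).mul (hd t))).congr_deriv (by ring)
  have hv : ∀ t, HasDerivAt (fun t => Cf c t * (y t - Ef c F t)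
      - Sf c t * (y' t - Ef1 c F t)) 0 t := fun t =>
    (((hasDerivAt_Cf c t).mul (hd t)).sub
      ((hasDerivAt_Sf c t).mul (hd' t))).congr_deriv (by ring)
  funext t
  have e1 := is_const_of_deriv_eq_zero (fun t => (hu t).differentiableAt)
    (fun t => (hu t).deriv) t 0
  have e2 := is_const_of_deriv_eq_zero (fun t => (hv t).differentiableAt)
    (fun t => (hv t).deriv) t 0
  simp only [Ef_zero, Ef1_zero, h0, h1, sub_zero, mul_zero] at e1 e2
  have hq := Cf_sq c t
  have : y t - Ef c F t = 0 := by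
    linear_combination (Sf c t) * e1 + (Cf c t) * e2 - (y t - Ef c F t) * hq
  linarith

theorem Ef_congr_add (c : ℝ) {F G : ℝ → ℝ} (hF : Continuous F) (hG : Continuous G) (t : ℝ) :
    Ef c (fun s => F s + G s) t = Ef c F t + Ef c G t := by
  unfold Ef
  have e1 : (∫ s in (0:ℝ)..t, Cf c s * (F s + G s))
      = (∫ s in (0:ℝ)..t, Cf c s * F s) + ∫ s in (0:ℝ)..t, Cf c s * G s := by
    have h := intervalIntegral.integral_add (μ := volume)
      (((continuous_Cf c).mul hF).intervalIntegrable 0 t)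
      (((continuous_Cf c).mul hG).intervalIntegrable 0 t)
    simp only [Pi.mul_apply] at h
    rw [← h]
    simp only [mul_add]
  have e2 : (∫ s in (0:ℝ)..t, Sf c s * (F s + G s))
      = (∫ s in (0:ℝ)..t, Sf c s * F s) + ∫ s in (0:ℝ)..t, Sf c s * G s := by
    have h := intervalIntegral.integral_add (μ := volume)
      (((continuous_Sf c).mul hF).intervalIntegrable 0 t)
      (((continuous_Sf c).mul hG).intervalIntegrable 0 t)
    simp only [Pi.mul_apply] at h
    rw [← h]
    simp only [mul_add]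
  rw [e1, e2]; ring

theorem Ef_const_mul (c a : ℝ) (F : ℝ → ℝ) (t : ℝ) :
    Ef c (fun s => a * F s) t = a * Ef c F t := by
  unfold Ef
  have e1 : (∫ s in (0:ℝ)..t, Cf c s * (a * F s)) = a * ∫ s in (0:ℝ)..t, Cf c s * F s := by
    rw [← intervalIntegral.integral_const_mul]
    simp only [mul_left_comm]
  have e2 : (∫ s in (0:ℝ)..t, Sf c s * (a * F s)) = a * ∫ s in (0:ℝ)..t, Sf c s * F s := by
    rw [← intervalIntegral.integral_const_mul]
    simp only [mul_left_comm]
  rw [e1, e2]; ring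

/-- the value at `T` for a `T`-periodic cosine -/
theorem Ef_cos {c a T : ℝ} (h : c + a ^ 2 ≠ 0) (hs : sin (a * T) = 0) (hc : cos (a * T) = 1) :
    Ef c (fun s => cos (a * s)) T = (1 - Cf c T) / (c + a ^ 2) := by
  have hF : Continuous fun s : ℝ => cos (a * s) := by fun_prop
  have key := Ef_unique (c := c) (F := fun s => cos (a * s))
    (y := fun t => (cos (a * t) - Cf c t) / (c + a ^ 2))
    (y' := fun t => (-(a * sin (a * t)) - c * Sf c t) / (c + a ^ 2)) hF
    (by simp [Cf_zero]) (by simp [Sf_zero])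
    (fun t => by
      have h1 : HasDerivAt (fun t => a * t) (a * 1) t := (hasDerivAt_id t).const_mul _
      exact ((h1.cos.sub (hasDerivAt_Cf c t)).div_const _).congr_deriv (by ring))
    (fun t => by
      have h1 : HasDerivAt (fun t => a * t) (a * 1) t := (hasDerivAt_id t).const_mul _
      refine ((((h1.sin.const_mul a).neg).sub ((hasDerivAt_Sf c t).const_mul c)).div_const
        _).congr_deriv ?_
      field_simp
      ring)
  rw [← key]
  simp only [hc]

/-- no resonance -/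
theorem Cf_ne_one {T κ : ℝ} (hT : 0 < T) (hres : ∀ a : ℕ, κ ^ 2 ≠ 2 - om T a ^ 2) :
    Cf (κ ^ 2 - 2) T ≠ 1 := by
  intro h
  rcases lt_trichotomy (κ ^ 2 - 2) 0 with h0 | h0 | h0
  · rw [Cf_neg h0] at h
    simp only at h
    rw [cos_eq_one_iff] at h
    obtain ⟨k, hk⟩ := h
    have hs0 : 0 ≤ √(-(κ ^ 2 - 2)) := sqrt_nonneg _
    have hsq : √(-(κ ^ 2 - 2)) ^ 2 = -(κ ^ 2 - 2) := sq_sqrt (by linarith)
    have e1 : √(-(κ ^ 2 - 2)) = (k:ℝ) * (2 * π / T) := by
      field_simp
      linarith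
    have hnat : ((k.natAbs : ℕ) : ℝ) ^ 2 = (k:ℝ) ^ 2 := by
      rw [Nat.cast_natAbs, Int.cast_abs, sq_abs]
    apply hres k.natAbs
    unfold om
    rw [mul_pow, hnat, ← mul_pow, ← e1, hsq]
    ring
  · apply hres 0
    unfold om
    simp
    linarith
  · rw [Cf_pos h0] at h
    simp only at h
    have h1 : √(κ ^ 2 - 2) * T = 0 := by
      by_contra hne
      have := one_lt_cosh.2 hne
      linarith
    have h2 : 0 < √(κ ^ 2 - 2) := sqrt_pos.2 h0
    have : 0 < √(κ ^ 2 - 2) * T := mul_pos h2 hT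
    linarith

end Phi4
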